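import Mathlib

set_option autoImplicit false
open MeasureTheory ProbabilityTheory Matrix WithLp
open scoped ENNReal RealInnerProductSpace

namespace Pool.Agent.H.MP_7b591b_pr

variable {n : ℕ}

noncomputable def gv (n : ℕ) : Measure (Fin n → ℝ) := Measure.pi fun _ => gaussianReal 0 1

instance : IsProbabilityMeasure (gv n) := by unfold gv; infer_instance

noncomputable def gm (n : ℕ) : Measure (Fin n → Fin n → ℝ) := Measure.pi fun _ => gv n

instance : IsProbabilityMeasure (gm n) := by unfold gm; infer_instance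

noncomputable def nr (v : Fin n → ℝ) : ℝ := ‖(toLp 2 v : EuclideanSpace ℝ (Fin n))‖

noncomputable def NN (A : Matrix (Fin n) (Fin n) ℝ) : ℝ := ‖Matrix.toEuclideanCLM (𝕜 := ℝ) A‖

theorem nr_nonneg (v : Fin n → ℝ) : 0 ≤ nr v := norm_nonneg _

theorem NN_nonneg (A : Matrix (Fin n) (Fin n) ℝ) : 0 ≤ NN A := norm_nonneg _

theorem nr_add (v w : Fin n → ℝ) : nr (v + w) ≤ nr v + nr w := by
  unfold nr; rw [toLp_add]; exact norm_add_le _ _

theorem nr_smul (c : ℝ) (v : Fin n → ℝ) : nr (c • v) = |c| * nr v := by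
  unfold nr; rw [toLp_smul, norm_smul, Real.norm_eq_abs]

theorem nr_single (i : Fin n) (c : ℝ) : nr (Pi.single i c : Fin n → ℝ) = |c| := by
  unfold nr
  simp

theorem nr_pos {v : Fin n → ℝ} (hv : v ≠ 0) : 0 < nr v := by
  unfold nr
  rw [norm_pos_iff]
  intro h
  exact hv (by simpa using h)

theorem nr_zero : nr (0 : Fin n → ℝ) = 0 := by simp [nr]

theorem nr_mono {v w : Fin n → ℝ} (h : ∀ i, |v i| ≤ |w i|) : nr v ≤ nr w := by
  unfold nr
  rw [EuclideanSpace.norm_eq, EuclideanSpace.norm_eq]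
  apply Real.sqrt_le_sqrt
  refine Finset.sum_le_sum fun i _ => ?_
  exact pow_le_pow_left₀ (norm_nonneg _) (h i) 2

theorem abs_le_nr (v : Fin n → ℝ) (i : Fin n) : |v i| ≤ nr v :=
  PiLp.norm_apply_le (toLp 2 v : EuclideanSpace ℝ (Fin n)) i

theorem inner_eq (u v : Fin n → ℝ) :
    ⟪(toLp 2 u : EuclideanSpace ℝ (Fin n)), toLp 2 v⟫ = u ⬝ᵥ v := by
  rw [EuclideanSpace.inner_toLp_toLp]
  simp [dotProduct_comm]

theorem abs_dot_le (u v : Fin n → ℝ) : |u ⬝ᵥ v| ≤ nr u * nr v := by
  rw [← inner_eq]; exact abs_real_inner_le_norm _ _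

theorem dot_self (u : Fin n → ℝ) : u ⬝ᵥ u = nr u ^ 2 := by
  rw [← inner_eq, real_inner_self_eq_norm_sq]; rfl

theorem nr_mulVec_le (A : Matrix (Fin n) (Fin n) ℝ) (v : Fin n → ℝ) : nr (A *ᵥ v) ≤ NN A * nr v :=
  (Matrix.toEuclideanCLM (𝕜 := ℝ) A).le_opNorm (toLp 2 v)

theorem NN_le {A : Matrix (Fin n) (Fin n) ℝ} {c : ℝ} (hc : 0 ≤ c)
    (h : ∀ v, nr (A *ᵥ v) ≤ c * nr v) : NN A ≤ c :=
  ContinuousLinearMap.opNorm_le_bound _ hc fun x => h (ofLp x)

theorem exists_lt_NN {A : Matrix (Fin n) (Fin n) ℝ} {r : ℝ} (h : r < NN A) :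
    ∃ v, nr v < 1 ∧ r < nr (A *ᵥ v) := by
  obtain ⟨x, h1, h2⟩ := ContinuousLinearMap.exists_lt_apply_of_lt_opNorm _ h
  exact ⟨ofLp x, h1, h2⟩

theorem NN_add (A B : Matrix (Fin n) (Fin n) ℝ) : NN (A + B) ≤ NN A + NN B := by
  unfold NN; rw [map_add]; exact norm_add_le _ _

theorem NN_smul (c : ℝ) (A : Matrix (Fin n) (Fin n) ℝ) : NN (c • A) = |c| * NN A := by
  unfold NN; rw [map_smul, norm_smul, Real.norm_eq_abs]

theorem row_le (A : Matrix (Fin n) (Fin n) ℝ) (i : Fin n) : nr (A i) ≤ NN A := by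
  by_cases h : A i = 0
  · rw [h, nr_zero]; exact NN_nonneg A
  have h0 := nr_pos h
  have h1 : nr (A i) ^ 2 ≤ NN A * nr (A i) := by
    rw [← dot_self]
    exact (le_abs_self _).trans ((abs_le_nr (A *ᵥ A i) i).trans (nr_mulVec_le A _))
  nlinarith

theorem continuous_nr : Continuous (nr : (Fin n → ℝ) → ℝ) := by
  unfold nr; fun_prop

theorem continuous_NN : Continuous (NN : Matrix (Fin n) (Fin n) ℝ → ℝ) := by
  let L : Matrix (Fin n) (Fin n) ℝ →ₗ[ℝ] (EuclideanSpace ℝ (Fin n) →L[ℝ] EuclideanSpace ℝ (Fin n)) :=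
    { toFun := fun A => Matrix.toEuclideanCLM (𝕜 := ℝ) A
      map_add' := fun A B => map_add _ A B
      map_smul' := fun c A => map_smul _ c A }
  exact continuous_norm.comp L.continuous_of_finiteDimensional

theorem exists_rot (u : Fin n → ℝ) (hu : nr u = 1) (i : Fin n) :
    ∃ R : Matrix (Fin n) (Fin n) ℝ, R *ᵥ u = Pi.single i 1 ∧ (∀ v, nr (R *ᵥ v) = nr v) ∧
      (∀ v, (R *ᵥ v) i = u ⬝ᵥ v) ∧ MeasurePreserving (fun v => R *ᵥ v) (gv n) (gv n) := by
  have h1 : ‖(toLp 2 u : EuclideanSpace ℝ (Fin n))‖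
      = ‖(toLp 2 (Pi.single i 1) : EuclideanSpace ℝ (Fin n))‖ := by
    have := nr_single i (1 : ℝ)
    rw [abs_one] at this
    exact hu.trans this.symm
  obtain ⟨f, hf⟩ : ∃ f : EuclideanSpace ℝ (Fin n) ≃ₗᵢ[ℝ] EuclideanSpace ℝ (Fin n),
      f (toLp 2 u) = toLp 2 (Pi.single i 1) := ⟨_, Submodule.reflection_sub h1⟩
  let R : Matrix (Fin n) (Fin n) ℝ := (Matrix.toEuclideanCLM (𝕜 := ℝ)).symm
    f.toContinuousLinearEquiv.toContinuousLinearMap
  have hR : ∀ v, toLp 2 (R *ᵥ v) = f (toLp 2 v) := by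
    intro v
    rw [← Matrix.toEuclideanCLM_toLp]
    simp [R]
  refine ⟨R, ?_, fun v => ?_, fun v => ?_, ?_⟩
  · have := hR u
    rw [hf] at this
    exact toLp_injective 2 this
  · unfold nr; rw [hR, f.norm_map]
  · rw [← inner_eq, ← f.inner_map_map, hf, ← hR, inner_eq]
    simp
  · have hm : Measurable fun v : Fin n → ℝ => R *ᵥ v :=
      (Continuous.matrix_mulVec continuous_const continuous_id).measurable
    refine ⟨hm, ?_⟩
    apply (MeasurableEquiv.toLp 2 (Fin n → ℝ)).map_measurableEquiv_injective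
    rw [Measure.map_map (MeasurableEquiv.measurable _) hm]
    have : (MeasurableEquiv.toLp 2 (Fin n → ℝ)) ∘ (fun v => R *ᵥ v) = f ∘ toLp 2 := by
      funext v; exact hR v
    rw [this, ← Measure.map_map f.continuous.measurable (WithLp.measurable_toLp 2 _),
      MeasurableEquiv.coe_toLp]
    unfold gv
    rw [map_pi_eq_stdGaussian, stdGaussian_map]

theorem mp_transpose : MeasurePreserving (fun (G : Fin n → Fin n → ℝ) i j => G j i) (gm n) (gm n) := by
  have hm : Measurable fun (G : Fin n → Fin n → ℝ) i j => G j i := by fun_prop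
  refine ⟨hm, ?_⟩
  have h1 : gm n = (Measure.infinitePi fun _ : Fin n × Fin n => gaussianReal 0 1).map
      (MeasurableEquiv.curry (Fin n) (Fin n) ℝ) := by
    rw [Measure.infinitePi_map_curry (fun _ _ => gaussianReal 0 1)]
    simp only [Measure.infinitePi_eq_pi]
    rfl
  have h2 := Measure.map_infinitePi_infinitePi_of_inj
    (P := fun _ : Fin n × Fin n => gaussianReal 0 1) (f := Prod.swap) Prod.swap_injective
  conv_rhs => rw [h1, ← h2]
  rw [h1, Measure.map_map hm (MeasurableEquiv.measurable _),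
    Measure.map_map (MeasurableEquiv.measurable _) (by fun_prop)]
  rfl

theorem mp_mul (R : Matrix (Fin n) (Fin n) ℝ)
    (h : MeasurePreserving (fun v => R *ᵥ v) (gv n) (gv n)) :
    MeasurePreserving (fun (G : Fin n → Fin n → ℝ) i j => (R * Matrix.of G) i j) (gm n) (gm n) := by
  have h1 : MeasurePreserving (fun (G : Fin n → Fin n → ℝ) i => R *ᵥ G i) (gm n) (gm n) :=
    measurePreserving_pi _ _ fun _ => h
  exact (mp_transpose.comp h1).comp mp_transpose

theorem update_le {ι : Type} [Fintype ι] [DecidableEq ι] {X : Type} [MeasurableSpace X]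
    (μ : Measure X) [SigmaFinite μ] (i : ι) (S : Set (ι → X)) (hS : MeasurableSet S)
    (g : (ι → X) → ℝ≥0∞) (hg : Measurable g)
    (h : ∀ x, μ {y | Function.update x i y ∈ S} ≤ ∫⁻ y, g (Function.update x i y) ∂μ) :
    Measure.pi (fun _ => μ) S ≤ ∫⁻ x, g x ∂Measure.pi (fun _ => μ) := by
  rw [← lintegral_indicator_one hS]
  refine lintegral_le_of_lmarginal_le {i} (measurable_one.indicator hS) hg ?_
  rw [lmarginal_singleton, lmarginal_singleton]
  intro x
  refine le_trans (le_of_eq ?_) (h x)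
  have hm : MeasurableSet {y | Function.update x i y ∈ S} := measurable_update x hS
  rw [← lintegral_indicator_one hm]
  rfl

theorem small_ball (b σ δ : ℝ) (hσ : 0 < σ) :
    gaussianReal 0 1 {s | |b + σ * s| ≤ δ} ≤ ENNReal.ofReal (δ / σ) := by
  have hsub : {s | |b + σ * s| ≤ δ} ⊆ Set.Icc ((-δ - b) / σ) ((δ - b) / σ) := by
    intro s hs
    obtain ⟨h1, h2⟩ := abs_le.1 (show |b + σ * s| ≤ δ from hs)
    constructor
    · rw [div_le_iff₀ hσ]; linarith
    · rw [le_div_iff₀ hσ]; linarith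
  refine (measure_mono hsub).trans ?_
  rw [gaussianReal_apply 0 one_ne_zero]
  calc ∫⁻ x in Set.Icc ((-δ - b) / σ) ((δ - b) / σ), gaussianPDF 0 1 x
      ≤ ∫⁻ _ in Set.Icc ((-δ - b) / σ) ((δ - b) / σ), ENNReal.ofReal (1 / 2) := by
        refine lintegral_mono fun x => ENNReal.ofReal_le_ofReal ?_
        unfold gaussianPDFReal
        have h1 : Real.exp (-(x - 0) ^ 2 / (2 * ((1 : NNReal) : ℝ))) ≤ 1 := by
          rw [Real.exp_le_one_iff]
          have : 0 ≤ (x - 0) ^ 2 := sq_nonneg _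
          simp only [NNReal.coe_one]
          linarith
        have h2 : (2 : ℝ) ≤ √(2 * Real.pi * ((1 : NNReal) : ℝ)) := by
          apply Real.le_sqrt_of_sq_le
          simp only [NNReal.coe_one]
          linarith [Real.pi_gt_three]
        have h3 : (√(2 * Real.pi * ((1 : NNReal) : ℝ)))⁻¹ ≤ 1 / 2 := by
          rw [one_div]; exact inv_anti₀ (by norm_num) h2
        calc _ ≤ 1 / 2 * 1 := mul_le_mul h3 h1 (Real.exp_pos _).le (by norm_num)
          _ = _ := mul_one _
    _ = ENNReal.ofReal (δ / σ) := by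
        rw [setLIntegral_const, Real.volume_Icc, ← ENNReal.ofReal_mul (by norm_num)]
        congr 1
        field_simp
        ring

theorem sb_lin (u : Fin n → ℝ) (hu : nr u = 1) (i : Fin n) (b σ δ : ℝ) (hσ : 0 < σ) :
    gv n {g | |b + σ * (u ⬝ᵥ g)| ≤ δ} ≤ ENNReal.ofReal (δ / σ) := by
  obtain ⟨R, -, -, h3, h4⟩ := exists_rot u hu i
  have h5 := (measurePreserving_eval (fun _ : Fin n => gaussianReal 0 1) i).comp h4
  have hm : MeasurableSet {s : ℝ | |b + σ * s| ≤ δ} :=
    (isClosed_le (by fun_prop) continuous_const).measurableSet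
  refine le_trans (le_of_eq ?_) (small_ball b σ δ hσ)
  rw [← h5.measure_preimage hm.nullMeasurableSet]
  congr 1
  ext g
  simp [h3]

theorem sb_joint (u : Fin n → ℝ) (hu : nr u = 1) (i : Fin n) (b β σ M t : ℝ) (hσ : 0 < σ)
    (hb : |b| ≤ β) (ht : 2 ≤ t) :
    gv n {g | t * |b + σ * (u ⬝ᵥ g)| ≤ M + σ * nr g}
      ≤ ∫⁻ g, ENNReal.ofReal (2 * (M + β + σ * nr g) / (t * σ)) ∂gv n := by
  obtain ⟨R, -, h2, h3, h4⟩ := exists_rot u hu i
  have hc := continuous_nr (n := n)
  have hm : MeasurableSet {g : Fin n → ℝ | t * |b + σ * g i| ≤ M + σ * nr g} :=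
    (isClosed_le (by fun_prop) (by fun_prop)).measurableSet
  have e : gv n {g | t * |b + σ * (u ⬝ᵥ g)| ≤ M + σ * nr g}
      = gv n {g : Fin n → ℝ | t * |b + σ * g i| ≤ M + σ * nr g} := by
    rw [← h4.measure_preimage hm.nullMeasurableSet]
    congr 1
    ext g
    simp [h3, h2]
  rw [e]
  refine update_le _ i _ hm _ (Continuous.measurable (by fun_prop)).ennreal_ofReal fun x => ?_
  set m := nr (Function.update x i 0) with hm0
  have h5 : ∀ s, m ≤ nr (Function.update x i s) := by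
    intro s
    refine nr_mono fun j => ?_
    by_cases hj : j = i
    · subst hj; simp
    · simp [Function.update_of_ne hj]
  have h6 : ∀ s, nr (Function.update x i s) ≤ m + |s| := by
    intro s
    have : Function.update x i s = Function.update x i 0 + Pi.single i s := by
      funext j
      by_cases hj : j = i
      · subst hj; simp
      · simp [Function.update_of_ne hj, Pi.single_eq_of_ne hj]
    rw [this, ← nr_single i s]
    exact nr_add _ _
  have ht0 : 0 < t := by linarith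
  calc _ ≤ gaussianReal 0 1 {s | |b + σ * s| ≤ 2 * (M + β + σ * m) / t} := by
        refine measure_mono fun s hs => ?_
        simp only [Set.mem_ofPred_eq, Function.update_self] at hs ⊢
        rw [le_div_iff₀ ht0]
        have a1 : σ * |s| ≤ |b + σ * s| + |b| := by
          have : σ * s = (b + σ * s) - b := by ring
          rw [← abs_of_pos hσ, ← abs_mul, abs_of_pos hσ]
          conv_lhs => rw [this]
          exact abs_sub _ _
        have a2 := mul_le_mul_of_nonneg_left (h6 s) hσ.le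
        have a3 := abs_nonneg (b + σ * s)
        nlinarith
    _ ≤ ENNReal.ofReal (2 * (M + β + σ * m) / t / σ) := small_ball _ _ _ hσ
    _ = ∫⁻ _, ENNReal.ofReal (2 * (M + β + σ * m) / (t * σ)) ∂gaussianReal 0 1 := by
        rw [lintegral_const, measure_univ, mul_one, div_div]
    _ ≤ _ := by
        refine lintegral_mono fun s => ENNReal.ofReal_le_ofReal ?_
        have := mul_le_mul_of_nonneg_left (h5 s) hσ.le
        exact div_le_div_of_nonneg_right (by linarith) (by positivity)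

end Pool.Agent.H.MP_7b591b_pr
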