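import Mathlib
import Pool.Agent.H.MP_7b591b_pr.Basic

set_option autoImplicit false
open MeasureTheory ProbabilityTheory Matrix WithLp
open scoped ENNReal RealInnerProductSpace

namespace Pool.Agent.H.MP_7b591b_pr

variable {n : ℕ}

theorem nr_neg (v : Fin n → ℝ) : nr (-v) = nr v := by
  unfold nr; rw [toLp_neg, norm_neg]

theorem exists_net (n : ℕ) : ∃ s : Finset (Fin n → ℝ), s.card ≤ 5 ^ n ∧ (∀ c ∈ s, nr c ≤ 2) ∧
    ∀ x, nr x ≤ 2 → ∃ c ∈ s, nr (x - c) < 1 := by
  classical
  let P : ℕ → Prop := fun k => ∃ s : Finset (Fin n → ℝ), s.card = k ∧ (∀ c ∈ s, nr c ≤ 2) ∧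
    ∀ c ∈ s, ∀ d ∈ s, c ≠ d → 1 ≤ nr (c - d)
  have hb : ∀ k, P k → k ≤ 5 ^ n := by
    rintro k ⟨s, rfl, h1, h2⟩
    have := Besicovitch.card_le_of_separated
      (s.image fun v => (toLp 2 v : EuclideanSpace ℝ (Fin n))) (by
        intro c hc
        obtain ⟨v, hv, rfl⟩ := Finset.mem_image.1 hc
        exact h1 v hv) (by
        intro c hc d hd hcd
        obtain ⟨v, hv, rfl⟩ := Finset.mem_image.1 hc
        obtain ⟨w, hw, rfl⟩ := Finset.mem_image.1 hd
        exact h2 v hv w hw fun h => hcd (by rw [h]))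
    rwa [Finset.card_image_of_injective _ (toLp_injective 2), finrank_euclideanSpace_fin] at this
  have h0 : P 0 := ⟨∅, by simp⟩
  obtain ⟨s, hs, h1, h2⟩ : P (Nat.findGreatest P (5 ^ n)) := Nat.findGreatest_spec (Nat.zero_le _) h0
  refine ⟨s, hs ▸ Nat.findGreatest_le _, h1, fun x hx => ?_⟩
  by_contra hc
  push Not at hc
  have hxs : x ∉ s := fun h => by
    have := hc x h
    rw [sub_self, nr_zero] at this
    linarith
  have hP : P (s.card + 1) := by
    refine ⟨insert x s, Finset.card_insert_of_notMem hxs, ?_, ?_⟩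
    · intro c hc'
      rcases Finset.mem_insert.1 hc' with rfl | h
      · exact hx
      · exact h1 c h
    · intro c hc' d hd hcd
      rcases Finset.mem_insert.1 hc' with rfl | h
      · rcases Finset.mem_insert.1 hd with rfl | h'
        · exact absurd rfl hcd
        · exact hc d h'
      · rcases Finset.mem_insert.1 hd with rfl | h'
        · rw [← nr_neg, neg_sub]; exact hc c h
        · exact h2 c h d h' hcd
  have := Nat.le_findGreatest (hb _ hP) hP
  omega

theorem NN_le_net (s : Finset (Fin n → ℝ)) (hs : ∀ x, nr x ≤ 2 → ∃ c ∈ s, nr (x - c) < 1)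
    (A : Matrix (Fin n) (Fin n) ℝ) : ∃ c ∈ s, ∃ d ∈ s, NN A ≤ d ⬝ᵥ A *ᵥ c := by
  obtain ⟨c0, hc0, -⟩ := hs 0 (by rw [nr_zero]; norm_num)
  obtain ⟨⟨c1, d1⟩, hcd, hmax⟩ := Finset.exists_max_image (s ×ˢ s) (fun p => p.2 ⬝ᵥ A *ᵥ p.1)
    ⟨(c0, c0), Finset.mem_product.2 ⟨hc0, hc0⟩⟩
  refine ⟨c1, (Finset.mem_product.1 hcd).1, d1, (Finset.mem_product.1 hcd).2, ?_⟩
  simp only at hmax
  set m := d1 ⬝ᵥ A *ᵥ c1
  have h1 : ∀ c ∈ s, nr (A *ᵥ c) ≤ m := by
    intro c hc
    by_cases h0 : A *ᵥ c = 0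
    · have := hmax (c, c) (Finset.mem_product.2 ⟨hc, hc⟩)
      simp only [h0, dotProduct_zero] at this
      rw [h0, nr_zero]; exact this
    have hp := nr_pos h0
    obtain ⟨d, hd, hd'⟩ := hs ((2 / nr (A *ᵥ c)) • A *ᵥ c) (by
      rw [nr_smul, abs_of_pos (by positivity), div_mul_cancel₀ _ hp.ne'])
    have h2 := hmax (c, d) (Finset.mem_product.2 ⟨hc, hd⟩)
    simp only at h2
    have h3 := (le_abs_self _).trans (abs_dot_le ((2 / nr (A *ᵥ c)) • A *ᵥ c - d) (A *ᵥ c))
    rw [sub_dotProduct, smul_dotProduct, dot_self, smul_eq_mul] at h3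
    have h4 : 2 / nr (A *ᵥ c) * nr (A *ᵥ c) ^ 2 = 2 * nr (A *ᵥ c) := by field_simp
    nlinarith
  by_contra hlt
  push Not at hlt
  obtain ⟨v, hv1, hv2⟩ := exists_lt_NN (A := A) (r := (m + NN A) / 2) (by linarith)
  obtain ⟨c, hc, hc'⟩ := hs ((2 : ℝ) • v) (by rw [nr_smul, abs_two]; linarith)
  have h2 : A *ᵥ ((2 : ℝ) • v) = A *ᵥ c + A *ᵥ ((2 : ℝ) • v - c) := by
    rw [← mulVec_add]; congr 1; abel
  have h3 := nr_add (A *ᵥ c) (A *ᵥ ((2 : ℝ) • v - c))
  rw [← h2, mulVec_smul, nr_smul, abs_two] at h3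
  have h4 := nr_mulVec_le A ((2 : ℝ) • v - c)
  have h5 := h1 c hc
  have h6 := NN_nonneg A
  nlinarith

theorem lint_exp (a : Fin n → Fin n → ℝ) :
    ∫⁻ G, ENNReal.ofReal (Real.exp (∑ i, ∑ j, a i j * G i j)) ∂gm n
      = ENNReal.ofReal (Real.exp (∑ i, ∑ j, a i j ^ 2 / 2)) := by
  simp_rw [Real.exp_sum]
  have hi : ∀ i, Integrable (fun g : Fin n → ℝ => ∏ j, Real.exp (a i j * g j)) (gv n) := fun i =>
    Integrable.fintype_prod (f := fun j x => Real.exp (a i j * x))
      fun j => integrable_exp_mul_gaussianReal _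
  have hI : Integrable (fun G : Fin n → Fin n → ℝ => ∏ i, ∏ j, Real.exp (a i j * G i j)) (gm n) :=
    Integrable.fintype_prod (f := fun i (g : Fin n → ℝ) => ∏ j, Real.exp (a i j * g j)) hi
  rw [← ofReal_integral_eq_lintegral_ofReal hI (Filter.Eventually.of_forall fun G => by positivity)]
  congr 1
  unfold gm
  rw [integral_fintype_prod_eq_prod (fun i (g : Fin n → ℝ) => ∏ j, Real.exp (a i j * g j))]
  refine Finset.prod_congr rfl fun i _ => ?_
  unfold gv
  rw [integral_fintype_prod_eq_prod (fun j x => Real.exp (a i j * x))]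
  refine Finset.prod_congr rfl fun j _ => ?_
  have := congrFun (mgf_id_gaussianReal (μ := 0) (v := 1)) (a i j)
  simpa [mgf] using this

theorem lint_NN (hn : 1 ≤ n) :
    ∫⁻ G, ENNReal.ofReal (NN (Matrix.of G)) ∂gm n ≤ ENNReal.ofReal (13 * √n) := by
  obtain ⟨s, hs1, hs2, hs3⟩ := exists_net n
  have hn' : (1 : ℝ) ≤ n := by exact_mod_cast hn
  have hr : 1 ≤ √(n : ℝ) := Real.one_le_sqrt.2 hn'
  have hrr : √(n : ℝ) * √n = n := Real.mul_self_sqrt (by linarith)
  set r := √(n : ℝ) with hrdef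
  have hpt : ∀ G : Fin n → Fin n → ℝ, ENNReal.ofReal (NN (Matrix.of G)) ≤ ENNReal.ofReal (12 * r)
      + ENNReal.ofReal (Real.exp (-(12 * n))) * ∑ p ∈ s ×ˢ s,
        ENNReal.ofReal (Real.exp (∑ i, ∑ j, (r * p.2 i * p.1 j) * G i j)) := by
    intro G
    obtain ⟨c, hc, d, hd, h⟩ := NN_le_net s hs3 (Matrix.of G)
    have e : ∑ i, ∑ j, (r * d i * c j) * G i j = r * (d ⬝ᵥ Matrix.of G *ᵥ c) := by
      simp only [dotProduct, mulVec, Matrix.of_apply, Finset.mul_sum]
      refine Finset.sum_congr rfl fun i _ => Finset.sum_congr rfl fun j _ => by ring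
    have h1 : NN (Matrix.of G) ≤ 12 * r + Real.exp (-(12 * n)) *
        Real.exp (∑ i, ∑ j, (r * d i * c j) * G i j) := by
      rw [e, ← Real.exp_add]
      have h2 := Real.add_one_le_exp (-(12 * n) + r * (d ⬝ᵥ Matrix.of G *ᵥ c))
      have h3 := Real.exp_pos (-(12 * n) + r * (d ⬝ᵥ Matrix.of G *ᵥ c))
      generalize Real.exp (-(12 * n) + r * (d ⬝ᵥ Matrix.of G *ᵥ c)) = X at h2 h3
      by_contra hc
      push Not at hc
      nlinarith
    calc _ ≤ ENNReal.ofReal (12 * r + Real.exp (-(12 * n)) *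
        Real.exp (∑ i, ∑ j, (r * d i * c j) * G i j)) := ENNReal.ofReal_le_ofReal h1
      _ ≤ ENNReal.ofReal (12 * r) + ENNReal.ofReal (Real.exp (-(12 * n))) *
        ENNReal.ofReal (Real.exp (∑ i, ∑ j, (r * d i * c j) * G i j)) := by
          rw [← ENNReal.ofReal_mul (Real.exp_pos _).le]
          exact ENNReal.ofReal_add_le
      _ ≤ _ := by
          have hmem : (c, d) ∈ s ×ˢ s := Finset.mem_product.2 ⟨hc, hd⟩
          have := Finset.single_le_sum (f := fun p : (Fin n → ℝ) × (Fin n → ℝ) =>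
            ENNReal.ofReal (Real.exp (∑ i, ∑ j, (r * p.2 i * p.1 j) * G i j)))
            (fun _ _ => bot_le) hmem
          simp only at this
          exact add_le_add_right (mul_le_mul_right this _) _
  refine (lintegral_mono hpt).trans ?_
  have hmeas : ∀ p : (Fin n → ℝ) × (Fin n → ℝ), Measurable fun G : Fin n → Fin n → ℝ =>
      ENNReal.ofReal (Real.exp (∑ i, ∑ j, (r * p.2 i * p.1 j) * G i j)) := fun p =>
    (Continuous.measurable (by fun_prop)).ennreal_ofReal
  rw [lintegral_add_left measurable_const, lintegral_const, measure_univ, mul_one,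
    lintegral_const_mul _ (Finset.measurable_sum _ fun p _ => hmeas p),
    lintegral_finsetSum _ fun p _ => hmeas p]
  simp_rw [lint_exp]
  have hb : ∀ p ∈ s ×ˢ s, ENNReal.ofReal (Real.exp (∑ i, ∑ j, (r * p.2 i * p.1 j) ^ 2 / 2))
      ≤ ENNReal.ofReal (Real.exp (8 * n)) := by
    intro p hp
    refine ENNReal.ofReal_le_ofReal (Real.exp_le_exp.2 ?_)
    have e : ∑ i, ∑ j, (r * p.2 i * p.1 j) ^ 2 / 2 = n / 2 * ((p.2 ⬝ᵥ p.2) * (p.1 ⬝ᵥ p.1)) := by
      unfold dotProduct
      rw [Finset.sum_mul_sum, Finset.mul_sum]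
      simp only [Finset.mul_sum]
      refine Finset.sum_congr rfl fun i _ => Finset.sum_congr rfl fun j _ => ?_
      rw [← hrr]; ring
    rw [e, dot_self, dot_self]
    have h1 : nr p.1 ^ 2 ≤ 2 ^ 2 :=
      pow_le_pow_left₀ (nr_nonneg _) (hs2 _ (Finset.mem_product.1 hp).1) 2
    have h2 : nr p.2 ^ 2 ≤ 2 ^ 2 :=
      pow_le_pow_left₀ (nr_nonneg _) (hs2 _ (Finset.mem_product.1 hp).2) 2
    have h3 : nr p.2 ^ 2 * nr p.1 ^ 2 ≤ 2 ^ 2 * 2 ^ 2 := mul_le_mul h2 h1 (by positivity) (by positivity)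
    nlinarith
  have hb2 := Finset.sum_le_card_nsmul _ _ _ hb
  rw [Finset.card_product, nsmul_eq_mul] at hb2
  have hc : ((s.card * s.card : ℕ) : ℝ≥0∞) ≤ ENNReal.ofReal (Real.exp (4 * n)) := by
    rw [← ENNReal.ofReal_natCast]
    refine ENNReal.ofReal_le_ofReal ?_
    have h1 : (s.card : ℝ) ≤ 5 ^ n := by exact_mod_cast hs1
    have h2 : (5 : ℝ) ≤ Real.exp 2 := by
      have : Real.exp 2 = Real.exp 1 ^ 2 := by rw [← Real.exp_nat_mul]; norm_num
      rw [this]
      nlinarith [Real.exp_one_gt_d9]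
    have h3 : (5 : ℝ) ^ n ≤ Real.exp (2 * n) := by
      rw [mul_comm, Real.exp_nat_mul]
      exact pow_le_pow_left₀ (by norm_num) h2 n
    have h4 : Real.exp (4 * n) = Real.exp (2 * n) * Real.exp (2 * n) := by
      rw [← Real.exp_add]; ring_nf
    push_cast
    rw [h4]
    exact mul_le_mul (h1.trans h3) (h1.trans h3) (by positivity) (by positivity)
  calc _ ≤ ENNReal.ofReal (12 * r) + ENNReal.ofReal (Real.exp (-(12 * n))) *
        (ENNReal.ofReal (Real.exp (4 * n)) * ENNReal.ofReal (Real.exp (8 * n))) := by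
        gcongr
        exact hb2.trans (by gcongr)
    _ = ENNReal.ofReal (12 * r + 1) := by
        rw [← ENNReal.ofReal_mul (Real.exp_pos _).le, ← ENNReal.ofReal_mul (Real.exp_pos _).le,
          ← Real.exp_add, ← Real.exp_add, ← ENNReal.ofReal_add (by positivity) (by positivity)]
        congr 2
        rw [← Real.exp_zero]; congr 1; ring
    _ ≤ _ := ENNReal.ofReal_le_ofReal (by linarith)

theorem lint_nr (i : Fin n) : ∫⁻ v, ENNReal.ofReal (nr v) ∂gv n ≤ ENNReal.ofReal (13 * √n) := by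
  have h := measurePreserving_eval (fun _ : Fin n => gv n) i
  rw [← h.lintegral_comp continuous_nr.measurable.ennreal_ofReal]
  refine le_trans (lintegral_mono fun G => ?_) (lint_NN (Fin.pos i))
  exact ENNReal.ofReal_le_ofReal (row_le (Matrix.of G) i)

theorem exists_unit_ker (A : Matrix (Fin n) (Fin n) ℝ) (i : Fin n) :
    ∃ u, nr u = 1 ∧ ∀ j, j ≠ i → A j ⬝ᵥ u = 0 := by
  have : (A.updateRow i 0).det = 0 := det_eq_zero_of_row_eq_zero i (by simp)
  obtain ⟨v, hv, hv0⟩ := Matrix.exists_mulVec_eq_zero_iff.2 this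
  have hp := nr_pos hv
  refine ⟨(nr v)⁻¹ • v, ?_, fun j hj => ?_⟩
  · rw [nr_smul, abs_of_pos (by positivity), inv_mul_cancel₀ hp.ne']
  · have := congrFun hv0 j
    simp only [mulVec, Pi.zero_apply, updateRow_ne hj] at this
    rw [dotProduct_smul, smul_eq_mul]
    have h2 : A j ⬝ᵥ v = 0 := this
    rw [h2, mul_zero]

theorem det_null (Ab : Matrix (Fin n) (Fin n) ℝ) (σ : ℝ) (hσ : 0 < σ) :
    gm n {G | (Ab + σ • Matrix.of G).det = 0} = 0 := by
  classical
  have hmeas : ∀ s : Finset (Fin n), MeasurableSet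
      {G : Fin n → Fin n → ℝ | ¬ LinearIndepOn ℝ (fun i => Ab i + σ • G i) (s : Set (Fin n))} := by
    intro s
    have : IsOpen {G : Fin n → Fin n → ℝ | LinearIndepOn ℝ (fun i => Ab i + σ • G i) (s : Set (Fin n))} :=
      isOpen_setOfPred_linearIndependent.preimage
        (f := fun (G : Fin n → Fin n → ℝ) (i : (s : Set (Fin n))) => Ab i + σ • G i) (by fun_prop)
    exact this.measurableSet.compl
  have key : ∀ s : Finset (Fin n),
      gm n {G | ¬ LinearIndepOn ℝ (fun i => Ab i + σ • G i) (s : Set (Fin n))} = 0 := by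
    intro s
    induction s using Finset.induction_on with
    | empty => simp
    | insert i s hi ih =>
      refine le_antisymm ?_ bot_le
      rw [← ih, ← lintegral_indicator_one (hmeas s)]
      refine update_le _ i _ (hmeas _) _ (measurable_one.indicator (hmeas s)) fun x => ?_
      have hcongr : ∀ y, Set.EqOn (fun j => Ab j + σ • Function.update x i y j)
          (fun j => Ab j + σ • x j) (s : Set (Fin n)) := by
        intro y j hj
        have : j ≠ i := fun h => hi (h ▸ hj)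
        simp [Function.update_of_ne this]
      by_cases hx : LinearIndepOn ℝ (fun j => Ab j + σ • x j) (s : Set (Fin n))
      · obtain ⟨u, hu, hu'⟩ := exists_unit_ker (Matrix.of fun j => Ab j + σ • x j) i
        have h0 := sb_lin u hu i (u ⬝ᵥ Ab i) σ 0 hσ
        rw [zero_div, ENNReal.ofReal_zero] at h0
        refine le_trans (le_trans (measure_mono fun y hy => ?_) h0) bot_le
        simp only [Set.mem_ofPred_eq, Finset.coe_insert] at hy ⊢
        rw [linearIndepOn_insert (by simpa using hi), (linearIndepOn_congr (hcongr y)),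
          (hcongr y).image_eq] at hy
        have hy2 : Ab i + σ • y ∈ Submodule.span ℝ ((fun j => Ab j + σ • x j) '' (s : Set (Fin n))) := by
          by_contra hc
          exact hy ⟨hx, by simpa using hc⟩
        have hy3 : ∀ w ∈ Submodule.span ℝ ((fun j => Ab j + σ • x j) '' (s : Set (Fin n))),
            w ⬝ᵥ u = 0 := by
          intro w hw
          induction hw using Submodule.span_induction with
          | mem w hw =>
            obtain ⟨j, hj, rfl⟩ := hw
            exact hu' j fun h => hi (h ▸ hj)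
          | zero => simp
          | add a b _ _ ha hb => rw [add_dotProduct, ha, hb, add_zero]
          | smul c a _ ha => rw [smul_dotProduct, ha, smul_zero]
        have := hy3 _ hy2
        rw [add_dotProduct, smul_dotProduct, smul_eq_mul, dotProduct_comm, dotProduct_comm y] at this
        rw [this, abs_zero]
      · refine prob_le_one.trans (le_of_eq ?_)
        have : ∀ y, Set.indicator {G : Fin n → Fin n → ℝ |
            ¬ LinearIndepOn ℝ (fun i => Ab i + σ • G i) (s : Set (Fin n))} (1 : (Fin n → Fin n → ℝ) → ℝ≥0∞)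
            (Function.update x i y) = 1 := by
          intro y
          rw [Set.indicator_of_mem]
          · rfl
          · simp only [Set.mem_ofPred_eq]
            rwa [linearIndepOn_congr (hcongr y)]
        simp_rw [this]
        simp
  refine measure_mono_null (fun G hG => ?_) (key Finset.univ)
  simp only [Set.mem_ofPred_eq, Finset.coe_univ, linearIndepOn_univ_iff] at hG ⊢
  intro h
  have h2 : IsUnit (Ab + σ • Matrix.of G) := Matrix.linearIndependent_rows_iff_isUnit.1 h
  rw [Matrix.isUnit_iff_isUnit_det, hG] at h2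
  exact not_isUnit_zero h2

end Pool.Agent.H.MP_7b591b_pr
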