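import Mathlib
import Pool.Agent.H.MP_7b591b_pr.Norm

set_option autoImplicit false
open MeasureTheory ProbabilityTheory Matrix WithLp
open scoped ENNReal RealInnerProductSpace

namespace Pool.Agent.H.MP_7b591b_pr

variable {n : ℕ}

def BB (Ab : Matrix (Fin n) (Fin n) ℝ) (σ t : ℝ) : Set ((Fin n → Fin n → ℝ) × (Fin n → ℝ)) :=
  {p | (Ab + σ • Matrix.of p.1).det ≠ 0 ∧
    t ≤ NN (Ab + σ • Matrix.of p.1) * nr ((Ab + σ • Matrix.of p.1)⁻¹ *ᵥ p.2)}

theorem continuous_AA (Ab : Matrix (Fin n) (Fin n) ℝ) (σ : ℝ) :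
    Continuous fun G : Fin n → Fin n → ℝ => Ab + σ • Matrix.of G :=
  continuous_matrix fun i j => by
    simp only [Matrix.add_apply, Matrix.smul_apply, Matrix.of_apply]; fun_prop

theorem measurableSet_BB (Ab : Matrix (Fin n) (Fin n) ℝ) (σ t : ℝ) : MeasurableSet (BB Ab σ t) := by
  have hA := (continuous_AA Ab σ).comp
    (continuous_fst : Continuous fun p : (Fin n → Fin n → ℝ) × (Fin n → ℝ) => p.1)
  have hdet := hA.matrix_det
  have h1 : MeasurableSet {p : (Fin n → Fin n → ℝ) × (Fin n → ℝ) |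
      (Ab + σ • Matrix.of p.1).det ≠ 0} := (isOpen_ne_fun hdet continuous_const).measurableSet
  have h2 : Measurable fun p : (Fin n → Fin n → ℝ) × (Fin n → ℝ) =>
      NN (Ab + σ • Matrix.of p.1) * nr ((Ab + σ • Matrix.of p.1)⁻¹ *ᵥ p.2) := by
    have e : ∀ p : (Fin n → Fin n → ℝ) × (Fin n → ℝ), nr ((Ab + σ • Matrix.of p.1)⁻¹ *ᵥ p.2)
        = |(Ab + σ • Matrix.of p.1).det|⁻¹ * nr ((Ab + σ • Matrix.of p.1).adjugate *ᵥ p.2) := by
      intro p
      rw [Matrix.inv_def, Ring.inverse_eq_inv', smul_mulVec, nr_smul, abs_inv]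
    simp_rw [e]
    exact (continuous_NN.comp hA).measurable.mul (hdet.abs.measurable.inv.mul
      (continuous_nr.comp (hA.matrix_adjugate.matrix_mulVec continuous_snd)).measurable)
  exact h1.inter (measurableSet_le measurable_const h2)

theorem step_e (Ab : Matrix (Fin n) (Fin n) ℝ) (hAb : NN Ab ≤ √n) (σ t : ℝ) (hσ : 0 < σ)
    (hσ1 : σ ≤ 1) (ht : 0 < t) (i : Fin n) :
    gm n {G | (G, Pi.single i 1) ∈ BB Ab σ t} ≤ ENNReal.ofReal (58 * √n / (t * σ)) := by
  have hn' : (1 : ℝ) ≤ n := by exact_mod_cast Fin.pos i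
  have hr : 1 ≤ √(n : ℝ) := Real.one_le_sqrt.2 hn'
  rcases lt_or_ge t 2 with ht2 | ht2
  · refine prob_le_one.trans ?_
    rw [← ENNReal.ofReal_one]
    refine ENNReal.ofReal_le_ofReal ?_
    rw [le_div_iff₀ (by positivity)]
    nlinarith
  have hof : Continuous fun G : Fin n → Fin n → ℝ => NN (Matrix.of G) := by
    have := continuous_NN.comp (continuous_AA (0 : Matrix (Fin n) (Fin n) ℝ) 1)
    simpa [Function.comp_def] using this
  have hS : MeasurableSet {G : Fin n → Fin n → ℝ | (G, Pi.single i 1) ∈ BB Ab σ t} :=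
    measurable_prodMk_right (measurableSet_BB Ab σ t)
  have h1 : gm n {G | (G, Pi.single i 1) ∈ BB Ab σ t}
      ≤ ∫⁻ G, ENNReal.ofReal (2 * (3 * √n + 2 * NN (Matrix.of G)) / (t * σ)) ∂gm n := by
    refine update_le _ i _ hS _ (Continuous.measurable (by fun_prop)).ennreal_ofReal fun x => ?_
    set Z := (Ab + σ • Matrix.of x).updateRow i 0 with hZ
    obtain ⟨u, hu, hu'⟩ := exists_unit_ker (Ab + σ • Matrix.of x) i
    have hrow : ∀ y j, j ≠ i → (Ab + σ • Matrix.of (Function.update x i y)) j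
        = (Ab + σ • Matrix.of x) j := by
      intro y j hj
      funext k
      simp [Function.update_of_ne hj]
    have hrowi : ∀ y, (Ab + σ • Matrix.of (Function.update x i y)) i = Ab i + σ • y := by
      intro y
      funext k
      simp
    have hmv : ∀ y w, (Ab + σ • Matrix.of (Function.update x i y)) *ᵥ w
        = Z *ᵥ w + Pi.single i ((Ab i + σ • y) ⬝ᵥ w) := by
      intro y w
      funext j
      change (Ab + σ • Matrix.of (Function.update x i y)) j ⬝ᵥ w = Z j ⬝ᵥ w + _
      by_cases hj : j = i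
      · subst hj
        rw [hrowi, hZ, updateRow_self]
        simp
      · rw [hrow y j hj, hZ, updateRow_ne hj, Pi.single_eq_of_ne hj, add_zero]
    have hZu : Z *ᵥ u = 0 := by
      funext j
      change Z j ⬝ᵥ u = 0
      by_cases hj : j = i
      · subst hj
        rw [hZ, updateRow_self]; simp
      · rw [hZ, updateRow_ne hj]; exact hu' j hj
    have hb : |u ⬝ᵥ Ab i| ≤ √n := by
      have := abs_dot_le u (Ab i)
      rw [hu, one_mul] at this
      exact this.trans ((row_le Ab i).trans hAb)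
    refine le_trans (measure_mono fun y hy => ?_)
      ((sb_joint u hu i (u ⬝ᵥ Ab i) (√n) σ (NN Z + √n) t hσ hb ht2).trans
        (lintegral_mono fun y => ENNReal.ofReal_le_ofReal ?_))
    · obtain ⟨hd, hle⟩ := hy
      simp only at hd hle
      simp only [Set.mem_ofPred_eq]
      set A := Ab + σ • Matrix.of (Function.update x i y) with hA
      set c := (Ab i + σ • y) ⬝ᵥ u with hc
      have hc' : u ⬝ᵥ Ab i + σ * (u ⬝ᵥ y) = c := by
        rw [hc, add_dotProduct, smul_dotProduct, smul_eq_mul, dotProduct_comm, dotProduct_comm u]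
      have hAu : A *ᵥ u = c • Pi.single i 1 := by
        rw [hA, hmv, hZu, zero_add, ← Pi.single_smul, smul_eq_mul, mul_one]
      have hu2 : u = c • (A⁻¹ *ᵥ Pi.single i 1) := by
        rw [← mulVec_smul, ← hAu, mulVec_mulVec, nonsing_inv_mul _ (isUnit_iff_ne_zero.2 hd),
          one_mulVec]
      have h3 : 1 = |c| * nr (A⁻¹ *ᵥ Pi.single i 1) := by rw [← nr_smul, ← hu2, hu]
      have h4 : NN A ≤ NN Z + nr (Ab i + σ • y) := by
        refine NN_le (add_nonneg (NN_nonneg _) (nr_nonneg _)) fun w => ?_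
        rw [hA, hmv]
        refine (nr_add _ _).trans ?_
        rw [nr_single, add_mul]
        exact add_le_add (nr_mulVec_le _ _) (abs_dot_le _ _)
      have h5 : nr (Ab i + σ • y) ≤ √n + σ * nr y := by
        refine (nr_add _ _).trans ?_
        rw [nr_smul, abs_of_pos hσ]
        exact add_le_add ((row_le Ab i).trans hAb) le_rfl
      rw [hc']
      have h6 := mul_le_mul_of_nonneg_right hle (abs_nonneg c)
      have h7 : NN A * nr (A⁻¹ *ᵥ Pi.single i 1) * |c| = NN A := by
        rw [mul_assoc, mul_comm _ |c|, ← h3, mul_one]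
      linarith
    · refine div_le_div_of_nonneg_right ?_ (by positivity)
      have h3 : NN Z ≤ NN (Ab + σ • Matrix.of (Function.update x i y)) := by
        refine NN_le (NN_nonneg _) fun w => le_trans (nr_mono fun j => ?_) (nr_mulVec_le _ _)
        rw [hmv]
        by_cases hj : j = i
        · subst hj
          have : (Z *ᵥ w) j = 0 := by
            change Z j ⬝ᵥ w = 0
            rw [hZ, updateRow_self]; simp
          rw [this, abs_zero]; exact abs_nonneg _
        · rw [Pi.add_apply, Pi.single_eq_of_ne hj, add_zero]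
      have h4 := NN_add Ab (σ • Matrix.of (Function.update x i y))
      rw [NN_smul, abs_of_pos hσ] at h4
      have h5 : nr y ≤ NN (Matrix.of (Function.update x i y)) := by
        have := row_le (Matrix.of (Function.update x i y)) i
        have e : Matrix.of (Function.update x i y) i = y := by funext k; simp
        rwa [e] at this
      have h6 := NN_nonneg (Matrix.of (Function.update x i y))
      have h7 := nr_nonneg y
      nlinarith
  refine h1.trans ?_
  have e : ∀ G : Fin n → Fin n → ℝ, ENNReal.ofReal (2 * (3 * √n + 2 * NN (Matrix.of G)) / (t * σ))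
      = ENNReal.ofReal (6 * √n / (t * σ))
        + ENNReal.ofReal (4 / (t * σ)) * ENNReal.ofReal (NN (Matrix.of G)) := by
    intro G
    have := NN_nonneg (Matrix.of G)
    rw [← ENNReal.ofReal_mul (by positivity), ← ENNReal.ofReal_add (by positivity) (by positivity)]
    congr 1
    ring
  simp_rw [e]
  rw [lintegral_add_left measurable_const, lintegral_const, measure_univ, mul_one,
    lintegral_const_mul _ hof.measurable.ennreal_ofReal]
  calc _ ≤ ENNReal.ofReal (6 * √n / (t * σ))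
        + ENNReal.ofReal (4 / (t * σ)) * ENNReal.ofReal (13 * √n) := by
        gcongr
        exact lint_NN (Fin.pos i)
    _ = _ := by
        rw [← ENNReal.ofReal_mul (by positivity), ← ENNReal.ofReal_add (by positivity) (by positivity)]
        congr 1
        ring

theorem step_v (Ab : Matrix (Fin n) (Fin n) ℝ) (hAb : NN Ab ≤ √n) (σ t : ℝ) (hσ : 0 < σ)
    (hσ1 : σ ≤ 1) (ht : 0 < t) (i : Fin n) (v : Fin n → ℝ) :
    gm n {G | (G, v) ∈ BB Ab σ t}
      ≤ ENNReal.ofReal (58 * √n / (t * σ)) * ENNReal.ofReal (nr v) := by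
  by_cases hv : v = 0
  · have : {G | (G, v) ∈ BB Ab σ t} = ∅ := by
      ext G
      simp only [BB, hv, Set.mem_ofPred_eq, mulVec_zero, nr_zero, mul_zero, Set.mem_empty_iff_false,
        iff_false, not_and, not_le]
      exact fun _ => ht
    rw [this, measure_empty]
    exact bot_le
  have hp := nr_pos hv
  obtain ⟨R, h1, h2, -, h4⟩ := exists_rot ((nr v)⁻¹ • v) (by
    rw [nr_smul, abs_of_pos (by positivity), inv_mul_cancel₀ hp.ne']) i
  have hN : ∀ A, NN (R * A) = NN A := by
    intro A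
    apply le_antisymm
    · refine NN_le (NN_nonneg _) fun w => ?_
      rw [← mulVec_mulVec, h2]; exact nr_mulVec_le _ _
    · refine NN_le (NN_nonneg _) fun w => ?_
      rw [← h2, mulVec_mulVec]; exact nr_mulVec_le _ _
  have hR : R.det ≠ 0 := by
    intro h
    obtain ⟨w, hw, hw0⟩ := Matrix.exists_mulVec_eq_zero_iff.2 h
    have := h2 w
    rw [hw0, nr_zero] at this
    exact (nr_pos hw).ne this
  have h5 := step_e (R * Ab) (by rw [hN]; exact hAb) σ (t / nr v) hσ hσ1 (by positivity) i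
  have hS : MeasurableSet {G : Fin n → Fin n → ℝ | (G, Pi.single i 1) ∈ BB (R * Ab) σ (t / nr v)} :=
    measurable_prodMk_right (measurableSet_BB _ σ _)
  rw [← (mp_mul R h4).measure_preimage hS.nullMeasurableSet] at h5
  refine le_trans (measure_mono fun G hG => ?_) (h5.trans (le_of_eq ?_))
  · obtain ⟨hd, hle⟩ := hG
    simp only at hd hle
    have e : R * Ab + σ • Matrix.of (fun i j => (R * Matrix.of G) i j) = R * (Ab + σ • Matrix.of G) := by
      rw [Matrix.mul_add, Matrix.mul_smul]; rfl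
    simp only [BB, Set.mem_preimage, Set.mem_ofPred_eq, e]
    set A := Ab + σ • Matrix.of G
    refine ⟨by rw [det_mul]; exact mul_ne_zero hR hd, ?_⟩
    rw [hN, Matrix.mul_inv_rev, ← h1, mulVec_mulVec, Matrix.mul_assoc,
      nonsing_inv_mul _ (isUnit_iff_ne_zero.2 hR), Matrix.mul_one, mulVec_smul, nr_smul,
      abs_of_pos (by positivity), div_le_iff₀ hp]
    calc t ≤ _ := hle
      _ = _ := by field_simp
  · rw [← ENNReal.ofReal_mul (by positivity)]
    congr 1
    field_simp

theorem step_avg (A : Matrix (Fin n) (Fin n) ℝ) (x : ℝ) (hx : 0 < x) (h : x ≤ NN A * NN A⁻¹)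
    (i : Fin n) : 1 / 2 ≤ gv n {v | x / 4 ≤ NN A * nr (A⁻¹ *ᵥ v)} := by
  have hA := NN_nonneg A
  have hB : 0 < NN A⁻¹ := by
    rcases (NN_nonneg A⁻¹).eq_or_lt with h0 | h0
    · rw [← h0, mul_zero] at h; linarith
    · exact h0
  obtain ⟨p, hp1, hp2⟩ := exists_lt_NN (A := A⁻¹) (r := NN A⁻¹ / 2) (by linarith)
  set q := A⁻¹ *ᵥ p with hq
  have hq0 : 0 < nr q := by linarith
  set a := q ᵥ* A⁻¹ with ha
  have hav : ∀ v, a ⬝ᵥ v = q ⬝ᵥ A⁻¹ *ᵥ v := fun v => (dotProduct_mulVec _ _ _).symm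
  have h1 : nr q ^ 2 ≤ nr a := by
    have h2 := (le_abs_self _).trans (abs_dot_le a p)
    rw [hav, ← hq, dot_self] at h2
    nlinarith [nr_nonneg a]
  have ha0 : 0 < nr a := lt_of_lt_of_le (by positivity) h1
  have hsb := sb_lin ((nr a)⁻¹ • a) (by
    rw [nr_smul, abs_of_pos (by positivity), inv_mul_cancel₀ ha0.ne']) i 0 1 (1 / 2) one_pos
  have hcov : (Set.univ : Set (Fin n → ℝ)) ⊆ {v | x / 4 ≤ NN A * nr (A⁻¹ *ᵥ v)} ∪
      {g | |0 + 1 * (((nr a)⁻¹ • a) ⬝ᵥ g)| ≤ 1 / 2} := by
    intro v _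
    by_contra hc
    simp only [Set.mem_union, Set.mem_ofPred_eq, not_or, not_le, zero_add, one_mul] at hc
    obtain ⟨hc1, hc2⟩ := hc
    rw [smul_dotProduct, smul_eq_mul, abs_mul, abs_of_pos (by positivity : 0 < (nr a)⁻¹),
      lt_inv_mul_iff₀ ha0, hav] at hc2
    have h3 := abs_dot_le q (A⁻¹ *ᵥ v)
    have h4 : nr q / 2 ≤ nr (A⁻¹ *ᵥ v) := by
      by_contra h5
      push Not at h5
      nlinarith
    have h5 : NN A * (NN A⁻¹ / 4) ≤ NN A * nr (A⁻¹ *ᵥ v) :=
      mul_le_mul_of_nonneg_left (by linarith) hA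
    linarith
  have h6 := (measure_mono (μ := gv n) hcov).trans (measure_union_le _ _)
  rw [measure_univ] at h6
  have h7 : ENNReal.ofReal (1 / 2 / 1) = 1 / 2 := by
    rw [div_one, ENNReal.ofReal_div_of_pos (by norm_num)]; simp
  rw [h7] at hsb
  have h8 := h6.trans (add_le_add_right hsb _)
  exact (ENNReal.add_le_add_iff_right (a := 1 / 2) (by simp)).1
    ((ENNReal.add_halves 1).le.trans h8)

theorem main (hn : 1 ≤ n) (Ab : Matrix (Fin n) (Fin n) ℝ) (hAb : NN Ab ≤ √n) (σ x : ℝ) (hσ : 0 < σ)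
    (hσ1 : σ ≤ 1) (hx : 0 < x) :
    gm n {G | (Ab + σ • Matrix.of G).det = 0 ∨
      x ≤ NN (Ab + σ • Matrix.of G) * NN (Ab + σ • Matrix.of G)⁻¹}
      ≤ ENNReal.ofReal (6032 * n / (x * σ)) := by
  let i : Fin n := ⟨0, hn⟩
  have hB := measurableSet_BB Ab σ (x / 4)
  have hsub : {G : Fin n → Fin n → ℝ | (Ab + σ • Matrix.of G).det = 0 ∨
      x ≤ NN (Ab + σ • Matrix.of G) * NN (Ab + σ • Matrix.of G)⁻¹} ⊆
      {G | (Ab + σ • Matrix.of G).det = 0} ∪ {G | 1 / 2 ≤ gv n (Prod.mk G ⁻¹' BB Ab σ (x / 4))} := by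
    intro G hG
    by_cases hd : (Ab + σ • Matrix.of G).det = 0
    · exact Or.inl hd
    · right
      refine (step_avg _ x hx (hG.resolve_left hd) i).trans (measure_mono fun v hv => ⟨hd, hv⟩)
  refine (measure_mono hsub).trans ((measure_union_le _ _).trans ?_)
  rw [det_null Ab σ hσ, zero_add]
  have h1 := mul_meas_ge_le_lintegral (μ := gm n) (measurable_measure_prodMk_left (ν := gv n) hB) (1 / 2)
  rw [← Measure.prod_apply hB, Measure.prod_apply_symm hB] at h1
  have h2 : ∫⁻ v, gm n ((fun G => (G, v)) ⁻¹' BB Ab σ (x / 4)) ∂gv n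
      ≤ ENNReal.ofReal (58 * √n / (x / 4 * σ)) * ENNReal.ofReal (13 * √n) := by
    refine (lintegral_mono fun v => step_v Ab hAb σ (x / 4) hσ hσ1 (by positivity) i v).trans ?_
    rw [lintegral_const_mul _ continuous_nr.measurable.ennreal_ofReal]
    gcongr
    exact lint_nr i
  have h3 := h1.trans h2
  rw [← ENNReal.ofReal_mul (by positivity)] at h3
  have h4 : ENNReal.ofReal (6032 * n / (x * σ)) = 2 * ENNReal.ofReal (58 * √n / (x / 4 * σ) * (13 * √n)) := by
    rw [← ENNReal.ofReal_ofNat 2, ← ENNReal.ofReal_mul (by norm_num)]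
    congr 1
    have hrr : √(n : ℝ) * √n = n := Real.mul_self_sqrt (by positivity)
    calc (6032 * n / (x * σ) : ℝ) = 6032 * (√(n : ℝ) * √n) / (x * σ) := by rw [hrr]
      _ = _ := by field_simp; ring
  rw [h4]
  calc _ = 2 * (1 / 2 * gm n {G | 1 / 2 ≤ gv n (Prod.mk G ⁻¹' BB Ab σ (x / 4))}) := by
        rw [← mul_assoc, one_div, ENNReal.mul_inv_cancel (by simp) (by simp), one_mul]
    _ ≤ _ := by gcongr

end Pool.Agent.H.MP_7b591b_pr
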